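import Pool.Agent.Lib.MP_e1f7e2_al.SU.Iface

set_option autoImplicit false

/-! Project SU3, module NB: normal form of neighbours. -/

open MvPolynomial

namespace Pool.Agent.Lib.MP_e1f7e2_al.SU.H41

section

variable {K : Type*} [Field K]

lemma C_inv_mul {a : K} (ha : a ≠ 0) :
    (C a⁻¹ * C a : MvPolynomial (Fin 3) K) = 1 := by
  rw [← map_mul, inv_mul_cancel₀ ha, map_one]

/-- `V'` is obtained from the frame `(u,v,t)` by changing `t` -/
def St (V' : Submodule K (MvPolynomial (Fin 3) K)) (u v t : MvPolynomial (Fin 3) K) : Prop :=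
  Fr u v t ∧ ∃ P : MvPolynomial (Fin 2) K, V' = sp3 u v (t + ev P u v)

lemma fr_aff1 {f g h : MvPolynomial (Fin 3) K} (H : Fr f g h) {a : K} (ha : a ≠ 0) (b c d : K) :
    Fr (C a * f + C b * g + C c * h + C d) g h := by
  have h1 := (H.smul1 ha).elem1 (C b * X 0 + C c * X 1 + C d)
  have h2 : C a * f + ev (C b * X 0 + C c * X 1 + C d) g h
      = C a * f + C b * g + C c * h + C d := by
    rw [ev_add, ev_add, ev_mul, ev_mul, ev_C, ev_C, ev_C, ev_X0, ev_X1]; ring
  rw [h2] at h1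
  exact h1

lemma fr_ne_C {g h : MvPolynomial (Fin 3) K} (c : K) (H : Fr (C c) g h) : False := by
  obtain ⟨d, hd, h1⟩ := H
  rw [D_C] at h1
  have h2 : (C d * (X 0 * X 1 * X 2) : MvPolynomial (Fin 3) K) = 0 := by
    rw [← h1]; simp [dt]
  rcases mul_eq_zero.mp h2 with h3 | h3
  · exact hd (by simpa using h3)
  · simp [X_ne_zero] at h3

variable {V' : Submodule K (MvPolynomial (Fin 3) K)} {u v t : MvPolynomial (Fin 3) K}

lemma St.swap (h : St V' u v t) : St V' v u t := by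
  obtain ⟨hf, P, rfl⟩ := h
  refine ⟨hf.swap12, aeval ![X 1, X 0] P, ?_⟩
  rw [ev_swap, sp3_swap12]

/-- replace `u` by `x` if `u = a x + b v + c` -/
lemma St.setU (h : St V' u v t) {a : K} (ha : a ≠ 0) (b c : K) {x : MvPolynomial (Fin 3) K}
    (hx : u = C a * x + C b * v + C c) : St V' x v t := by
  obtain ⟨hf, P, rfl⟩ := h
  have hC := C_inv_mul ha
  have hx' : x = C a⁻¹ * u + C (-(a⁻¹ * b)) * v + C 0 * t + C (-(a⁻¹ * c)) := by
    rw [hx]
    simp only [map_mul, map_neg, map_zero]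
    linear_combination (-x) * hC
  refine ⟨?_, aeval ![C a * X 0 + C b * X 1 + C c, X 1] P, ?_⟩
  · rw [hx']
    exact fr_aff1 hf (inv_ne_zero ha) _ _ _
  · rw [← ev_comp, ev_X1]
    have h1 : ev (C a * X 0 + C b * X 1 + C c) x v = u := by
      rw [ev_add, ev_add, ev_mul, ev_mul, ev_C, ev_C, ev_C, ev_X0, ev_X1, hx]
    rw [h1]
    have h2 := sp3_aff1 (f := x) (g := v) (h := t + ev P u v) ha b 0 c
    rw [← h2]
    congr 1
    rw [hx]
    simp

lemma St.setV (h : St V' u v t) {a : K} (ha : a ≠ 0) (b c : K) {x : MvPolynomial (Fin 3) K}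
    (hx : v = C a * x + C b * u + C c) : St V' u x t :=
  (h.swap.setU ha b c hx).swap

/-- replace `t` by `x` if `t = e x + a u + b v + c` -/
lemma St.setT (h : St V' u v t) (e a b c : K) {x : MvPolynomial (Fin 3) K}
    (hx : t = C e * x + C a * u + C b * v + C c) : St V' u v x := by
  obtain ⟨hf, P, rfl⟩ := h
  have he : e ≠ 0 := by
    rintro rfl
    have h1 := fr_aff1 hf.rot' one_ne_zero (-a) (-b) (-c)
    have h2 : C 1 * t + C (-a) * u + C (-b) * v + C (-c) = C 0 := by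
      rw [hx]; simp only [map_neg, map_zero, map_one]; ring
    rw [h2] at h1
    exact fr_ne_C _ h1
  have hC := C_inv_mul he
  have hx' : x = C e⁻¹ * t + C (-(e⁻¹ * a)) * u + C (-(e⁻¹ * b)) * v + C (-(e⁻¹ * c)) := by
    rw [hx]
    simp only [map_mul, map_neg]
    linear_combination (-x) * hC
  refine ⟨?_, C e⁻¹ * P, ?_⟩
  · have h1 := fr_aff1 hf.rot' (inv_ne_zero he) (-(e⁻¹ * a)) (-(e⁻¹ * b)) (-(e⁻¹ * c))
    rw [← hx'] at h1
    exact h1.rot
  · rw [sp3_rot' u v, sp3_rot' u v]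
    have h2 := sp3_aff1 (f := t + ev P u v) (g := u) (h := v) (inv_ne_zero he)
      (-(e⁻¹ * a)) (-(e⁻¹ * b)) (-(e⁻¹ * c))
    rw [← h2]
    congr 1
    rw [ev_mul, ev_C]
    linear_combination (-1 : MvPolynomial (Fin 3) K) * hx'

variable {f1 f2 f3 : MvPolynomial (Fin 3) K}

/-- the three types of planes, case of a nonzero first coefficient -/
lemma planesA {a2 a3 b2 b3 c0 c1 c2 c3 : K} (h : St V' u v t)
    (hu : u = f1 + C a2 * f2 + C a3 * f3) (hv : v = C b2 * f2 + C b3 * f3)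
    (ht : t = C c1 * f1 + C c2 * f2 + C c3 * f3 + C c0) :
    (∃ c, St V' (f1 + C c * f2) f3 f2) ∨
    (∃ d1 d2, St V' (f1 + C d1 * f3) (f2 + C d2 * f3) f3) := by
  by_cases hb2 : b2 = 0
  · left
    subst hb2
    have hb3 : b3 ≠ 0 := by
      rintro rfl
      have h1 := h.1.swap12
      rw [hv] at h1
      have h2 : (C 0 * f2 + C 0 * f3 : MvPolynomial (Fin 3) K) = C 0 := by simp
      rw [h2] at h1
      exact fr_ne_C _ h1
    have h1 : St V' u f3 t := h.setV hb3 0 0 (by rw [hv]; simp)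
    have h2 : St V' (f1 + C a2 * f2) f3 t := h1.setU one_ne_zero a3 0 (by rw [hu]; simp)
    refine ⟨a2, h2.setT (c2 - c1 * a2) c1 c3 c0 ?_⟩
    rw [ht]; simp only [map_sub, map_mul]; ring
  · right
    have hC := C_inv_mul hb2
    have h1 : St V' u (f2 + C (b2⁻¹ * b3) * f3) t := h.setV hb2 0 0 (by
      rw [hv]; simp only [map_mul, map_zero]; linear_combination (-(C b3 * f3)) * hC)
    have h2 : St V' (f1 + C (a3 - a2 * (b2⁻¹ * b3)) * f3) (f2 + C (b2⁻¹ * b3) * f3) t :=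
      h1.setU one_ne_zero a2 0 (by
        rw [hu]; simp only [map_sub, map_mul, map_zero, map_one]; ring)
    refine ⟨_, _, h2.setT (c3 - c1 * (a3 - a2 * (b2⁻¹ * b3)) - c2 * (b2⁻¹ * b3)) c1 c2 c0 ?_⟩
    rw [ht]; simp only [map_sub, map_mul]; ring

lemma planesB {a2 a3 b2 b3 c0 c1 c2 c3 : K} (h : St V' u v t)
    (hu : u = C a2 * f2 + C a3 * f3) (hv : v = C b2 * f2 + C b3 * f3)
    (ht : t = C c1 * f1 + C c2 * f2 + C c3 * f3 + C c0) : St V' f2 f3 f1 := by
  have key : St V' f2 f3 t → St V' f2 f3 f1 := fun h1 =>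
    h1.setT c1 c2 c3 c0 (by rw [ht])
  apply key
  by_cases ha2 : a2 = 0
  · subst ha2
    have ha3 : a3 ≠ 0 := by
      rintro rfl
      have h1 := h.1
      rw [hu] at h1
      have h2 : (C 0 * f2 + C 0 * f3 : MvPolynomial (Fin 3) K) = C 0 := by simp
      rw [h2] at h1
      exact fr_ne_C _ h1
    have h1 : St V' f3 v t := h.setU ha3 0 0 (by rw [hu]; simp)
    have h2 : St V' f3 (C b2 * f2) t := h1.setV one_ne_zero b3 0 (by rw [hv]; simp)
    have hb2 : b2 ≠ 0 := by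
      rintro rfl
      have h3 := h2.1.swap12
      have h4 : (C 0 * f2 : MvPolynomial (Fin 3) K) = C 0 := by simp
      rw [h4] at h3
      exact fr_ne_C _ h3
    exact (h2.setV hb2 0 0 (by simp)).swap
  · have hC := C_inv_mul ha2
    have h1 : St V' (f2 + C (a2⁻¹ * a3) * f3) v t := h.setU ha2 0 0 (by
      rw [hu]; simp only [map_mul, map_zero]; linear_combination (-(C a3 * f3)) * hC)
    have h2 : St V' (f2 + C (a2⁻¹ * a3) * f3) (C (b3 - b2 * (a2⁻¹ * a3)) * f3) t :=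
      h1.setV one_ne_zero b2 0 (by
        rw [hv]; simp only [map_sub, map_mul, map_zero, map_one]; ring)
    have hb : b3 - b2 * (a2⁻¹ * a3) ≠ 0 := by
      intro h0
      have h3 := h2.1.swap12
      rw [h0] at h3
      have h4 : (C 0 * f3 : MvPolynomial (Fin 3) K) = C 0 := by simp
      rw [h4] at h3
      exact fr_ne_C _ h3
    have h3 : St V' (f2 + C (a2⁻¹ * a3) * f3) f3 t := h2.setV hb 0 0 (by simp)
    exact h3.setU one_ne_zero (a2⁻¹ * a3) 0 (by simp)

lemma planesC {a1 : K} (ha1 : a1 ≠ 0) {a0 a2 a3 b0 b1 b2 b3 c0 c1 c2 c3 : K} (h : St V' u v t)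
    (hu : u = C a1 * f1 + C a2 * f2 + C a3 * f3 + C a0)
    (hv : v = C b1 * f1 + C b2 * f2 + C b3 * f3 + C b0)
    (ht : t = C c1 * f1 + C c2 * f2 + C c3 * f3 + C c0) :
    (∃ c, St V' (f1 + C c * f2) f3 f2) ∨
    (∃ d1 d2, St V' (f1 + C d1 * f3) (f2 + C d2 * f3) f3) := by
  have hC := C_inv_mul ha1
  have h1 : St V' (f1 + C (a1⁻¹ * a2) * f2 + C (a1⁻¹ * a3) * f3) v t := h.setU ha1 0 a0 (by
    rw [hu]; simp only [map_mul, map_zero]
    linear_combination (-(C a2 * f2) - (C a3 * f3)) * hC)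
  have h2 : St V' (f1 + C (a1⁻¹ * a2) * f2 + C (a1⁻¹ * a3) * f3)
      (C (b2 - b1 * (a1⁻¹ * a2)) * f2 + C (b3 - b1 * (a1⁻¹ * a3)) * f3) t :=
    h1.setV one_ne_zero b1 b0 (by
      rw [hv]; simp only [map_sub, map_mul, map_one]; ring)
  exact planesA h2 rfl rfl ht

lemma planes (h : St V' u v t) (hu : u ∈ sp3 f1 f2 f3) (hv : v ∈ sp3 f1 f2 f3)
    (ht : t ∈ sp3 f1 f2 f3) :
    St V' f2 f3 f1 ∨ (∃ c, St V' (f1 + C c * f2) f3 f2) ∨
    (∃ d1 d2, St V' (f1 + C d1 * f3) (f2 + C d2 * f3) f3) := by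
  obtain ⟨a1, a2, a3, a0, hu⟩ := mem_sp3.mp hu
  obtain ⟨b1, b2, b3, b0, hv⟩ := mem_sp3.mp hv
  obtain ⟨c1, c2, c3, c0, ht⟩ := mem_sp3.mp ht
  by_cases ha1 : a1 = 0
  · by_cases hb1 : b1 = 0
    · left
      subst ha1 hb1
      have h1 : St V' (C a2 * f2 + C a3 * f3) v t := h.setU one_ne_zero 0 a0 (by
        rw [hu]; simp)
      have h2 : St V' (C a2 * f2 + C a3 * f3) (C b2 * f2 + C b3 * f3) t :=
        h1.setV one_ne_zero 0 b0 (by rw [hv]; simp)
      exact planesB h2 rfl rfl ht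
    · right
      exact planesC hb1 h.swap hv hu ht
  · right
    exact planesC ha1 h hu hv ht

end

section

variable {K : Type*} [Field K] {w : Fin 3 → ℝ}

/-- choose the polynomial minimal modulo affine terms -/
lemma exists_min (F : DegFacts K w) {V' : Submodule K (MvPolynomial (Fin 3) K)}
    {u v t : MvPolynomial (Fin 3) K} (h : St V' u v t) :
    ∃ P : MvPolynomial (Fin 2) K, V' = sp3 u v (t + ev P u v) ∧
      ∀ a b c : K, dg w (t + ev P u v) ≤ dg w (t + ev P u v + C a * u + C b * v + C c) := by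
  obtain ⟨hf, P, rfl⟩ := h
  obtain ⟨x, ⟨a, b, c, rfl⟩, hx⟩ := F.minim
    {x | ∃ a b c : K, x = t + ev P u v + C a * u + C b * v + C c}
    ⟨_, 0, 0, 0, rfl⟩
  have he : ev (P + C a * X 0 + C b * X 1 + C c) u v
      = ev P u v + C a * u + C b * v + C c := by
    rw [ev_add, ev_add, ev_add, ev_mul, ev_mul, ev_C, ev_C, ev_C, ev_X0, ev_X1]
  refine ⟨P + C a * X 0 + C b * X 1 + C c, ?_, ?_⟩
  · rw [he, sp3_rot' u v, sp3_rot' u v]
    have h2 := sp3_add1 (t + ev P u v) u v a b c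
    rw [← h2]
    congr 1
    ring
  · intro a' b' c'
    rw [he]
    have h3 := hx (t + ev P u v + C (a + a') * u + C (b + b') * v + C (c + c')) ⟨_, _, _, rfl⟩
    have h4 : t + (ev P u v + C a * u + C b * v + C c) = t + ev P u v + C a * u + C b * v + C c := by
      ring
    have h5 : t + (ev P u v + C a * u + C b * v + C c) + C a' * u + C b' * v + C c'
        = t + ev P u v + C (a + a') * u + C (b + b') * v + C (c + c') := by
      simp only [map_add]; ring
    rw [h5, h4]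
    exact h3

/-- if the minimal new element has larger degree, the old vertex is a strict neighbour -/
lemma sort_red (F : DegFacts K w) {u v t : MvPolynomial (Fin 3) K} (hf : Fr u v t)
    (huv : dg w v < dg w u) (P : MvPolynomial (Fin 2) K)
    (hlt : dg w t < dg w (t + ev P u v))
    (hmin : ∀ a b c : K, dg w (t + ev P u v) ≤ dg w (t + ev P u v + C a * u + C b * v + C c))
    (hr : Red w (sp3 u v t)) : Red w (sp3 u v (t + ev P u v)) := by
  have hpos : 0 < dg w (t + ev P u v) := lt_of_le_of_lt (F.nn t) hlt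
  have hfx : Fr u v (t + ev P u v) := hf.elem3 P
  have hnu : dg w (t + ev P u v) ≠ dg w u := by
    intro h
    obtain ⟨c, hc, hl⟩ := F.lead _ _ hpos h
    have h1 := hmin (-c) 0 0
    have h2 : t + ev P u v + C (-c) * u + C 0 * v + C 0 = t + ev P u v - C c * u := by
      simp only [map_neg, map_zero]; ring
    rw [h2] at h1
    linarith
  have hnv : dg w (t + ev P u v) ≠ dg w v := by
    intro h
    obtain ⟨c, hc, hl⟩ := F.lead _ _ hpos h
    have h1 := hmin 0 (-c) 0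
    have h2 : t + ev P u v + C 0 * u + C (-c) * v + C 0 = t + ev P u v - C c * v := by
      simp only [map_neg, map_zero]; ring
    rw [h2] at h1
    linarith
  set x := t + ev P u v with hx
  have hxt : x + ev (-P) u v = t := by
    rw [hx, ev_neg]; ring
  rcases lt_or_gt_of_ne hnu with h1 | h1
  · rcases lt_or_gt_of_ne hnv with h2 | h2
    · -- x is the smallest
      refine Red.e3 u v x (-P) ⟨hfx, huv, h2⟩ ?_ ?_
      · rw [hxt]; exact hlt
      · rw [hxt]; exact hr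
    · rw [sp3_swap23 u v x]
      refine Red.e2 u x v (-P) ⟨hfx.swap23, h1, h2⟩ ?_ ?_
      · rw [hxt]; exact hlt
      · rw [hxt, sp3_swap23 u t v]; exact hr
  · rw [sp3_rot' u v x]
    refine Red.e1 x u v (-P) ⟨hfx.rot', h1, huv⟩ ?_ ?_
    · rw [hxt]; exact hlt
    · rw [hxt, ← sp3_rot' u v t]; exact hr

theorem nb (F : DegFacts K w) : NbStatement K w := by
  intro f1 f2 f3 V' hG hA
  obtain ⟨f, g, h, P0, hfr, hV, hV'⟩ := hA
  have hst : St V' f g h := ⟨hfr, P0, hV'⟩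
  have hmf : f ∈ sp3 f1 f2 f3 := by
    rw [hV]; exact mem_sp3.mpr ⟨1, 0, 0, 0, by simp⟩
  have hmg : g ∈ sp3 f1 f2 f3 := by
    rw [hV]; exact mem_sp3.mpr ⟨0, 1, 0, 0, by simp⟩
  have hmh : h ∈ sp3 f1 f2 f3 := by
    rw [hV]; exact mem_sp3.mpr ⟨0, 0, 1, 0, by simp⟩
  rcases planes hst hmf hmg hmh with h1 | ⟨c, h1⟩ | ⟨d1, d2, h1⟩
  · obtain ⟨P, hP, hmin⟩ := exists_min F h1
    rcases le_or_gt (dg w (f1 + ev P f2 f3)) (dg w f1) with h2 | h2
    · right; left
      exact ⟨P, by rw [hP, ← sp3_rot], h2⟩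
    · left
      intro hr
      rw [hP]
      refine sort_red F h1.1 hG.d23 P h2 hmin ?_
      rw [← sp3_rot]; exact hr
  · have hdu : dg w (f1 + C c * f2) = dg w f1 :=
      F.add_left _ _ (lt_of_le_of_lt (F.Cmul_le c f2) hG.d12)
    obtain ⟨P, hP, hmin⟩ := exists_min F h1
    rcases le_or_gt (dg w (f2 + ev P (f1 + C c * f2) f3)) (dg w f2) with h2 | h2
    · right; right; left
      exact ⟨c, P, by rw [hP, sp3_swap23], h2⟩
    · left
      intro hr
      rw [hP]
      refine sort_red F h1.1 (by rw [hdu]; exact hG.d23.trans hG.d12) P h2 hmin ?_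
      rw [sp3_swap23]
      have h3 := sp3_add1 f1 f2 f3 c 0 0
      simp only [map_zero, zero_mul, add_zero] at h3
      rw [h3]; exact hr
  · have hd31 : dg w f3 < dg w f1 := hG.d23.trans hG.d12
    have hdu : dg w (f1 + C d1 * f3) = dg w f1 :=
      F.add_left _ _ (lt_of_le_of_lt (F.Cmul_le d1 f3) hd31)
    have hdv : dg w (f2 + C d2 * f3) = dg w f2 :=
      F.add_left _ _ (lt_of_le_of_lt (F.Cmul_le d2 f3) hG.d23)
    obtain ⟨P, hP, hmin⟩ := exists_min F h1
    rcases le_or_gt (dg w (f3 + ev P (f1 + C d1 * f3) (f2 + C d2 * f3))) (dg w f3) with h2 | h2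
    · right; right; right
      exact ⟨d1, d2, P, hP, h2⟩
    · left
      intro hr
      rw [hP]
      refine sort_red F h1.1 (by rw [hdu, hdv]; exact hG.d12) P h2 hmin ?_
      have h3 := sp3_add1 f1 (f2 + C d2 * f3) f3 0 d1 0
      simp only [map_zero, zero_mul, add_zero] at h3
      rw [h3, sp3_swap12]
      have h4 := sp3_add1 f2 f1 f3 0 d2 0
      simp only [map_zero, zero_mul, add_zero] at h4
      rw [h4, sp3_swap12]; exact hr

end

end Pool.Agent.Lib.MP_e1f7e2_al.SU.H41
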